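import Pool.Agent.H317.GR.StmB

set_option autoImplicit false

/-! Project GR (helper317), part LAT (helper176): invariant lattice from a rank one element. -/

namespace Pool.Agent.H176.GR

open Matrix Module
open Pool.Agent.H317.GR

section

variable {K : Type} [Field K] {n : ℕ}

theorem span_top (s : Set (Fin n → K)) (h : ∀ χ : Fin n → K, (∀ u ∈ s, χ ⬝ᵥ u = 0) → χ = 0) :
    Submodule.span K s = ⊤ := by
  by_contra hne
  obtain ⟨f, hf, hle⟩ := Submodule.exists_le_ker_of_lt_top _ (lt_top_iff_ne_top.2 hne)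
  apply hf
  have h1 : ∀ u, f u = (fun i => f (Pi.single i 1)) ⬝ᵥ u := by
    intro u
    conv_lhs => rw [← Finset.univ_sum_single u]
    rw [map_sum]
    unfold dotProduct
    refine Finset.sum_congr rfl fun i _ => ?_
    have h3 : (Pi.single i (u i) : Fin n → K) = u i • (Pi.single i (1 : K) : Fin n → K) := by
      rw [← Pi.single_smul, smul_eq_mul, mul_one]
    rw [h3, map_smul, smul_eq_mul, mul_comm]
  have h2 := h _ (fun u hu => by
    rw [← h1]
    exact LinearMap.mem_ker.1 (hle (Submodule.subset_span hu)))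
  refine LinearMap.ext fun u => ?_
  rw [h1, h2]
  simp

theorem isUnit_of_span (f : Fin n → Fin n → K) (h : Submodule.span K (Set.range f) = ⊤) :
    IsUnit (Matrix.of f) := by
  rw [← Matrix.linearIndependent_rows_iff_isUnit]
  exact linearIndependent_of_top_le_span_of_card_eq_finrank (b := f) h.ge (by simp)

theorem vec_zero {a b : Fin n → K} (hb : b ≠ 0) (h : vecMulVec a b = 0) : a = 0 := by
  rcases vecMulVec_eq_zero.1 h with h | h
  · exact h
  · exact absurd h hb

variable {G : Type} [Group G] (ρ : G →* GL (Fin n) K)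

/-- the lattice -/
def LL (φ : Fin n → K) : Submodule ℤ (Fin n → K) where
  carrier := {w | ∀ h : G, ∃ a : ℤ, φ ⬝ᵥ ((ρ h).val *ᵥ w) = a}
  add_mem' := by
    intro x y hx hy h
    obtain ⟨a, ha⟩ := hx h
    obtain ⟨b, hb⟩ := hy h
    exact ⟨a + b, by rw [mulVec_add, dotProduct_add, ha, hb]; push_cast; rfl⟩
  zero_mem' := fun h => ⟨0, by simp⟩
  smul_mem' := by
    intro c x hx h
    obtain ⟨a, ha⟩ := hx h
    exact ⟨c * a, by rw [mulVec_smul, dotProduct_smul, ha]; simp⟩

theorem mem_LL {φ w : Fin n → K} : w ∈ LL ρ φ ↔ ∀ h : G, ∃ a : ℤ, φ ⬝ᵥ ((ρ h).val *ᵥ w) = a := Iff.rfl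

theorem LL_inv {φ w : Fin n → K} (hw : w ∈ LL ρ φ) (u : G) : (ρ u).val *ᵥ w ∈ LL ρ φ := by
  intro h
  obtain ⟨a, ha⟩ := hw (h * u)
  refine ⟨a, ?_⟩
  rw [← ha, map_mul, Units.val_mul, mulVec_mulVec]

/-- integral vectors and a matrix -/
def FF (A : Matrix (Fin n) (Fin n) K) : (Fin n → ℤ) →ₗ[ℤ] (Fin n → K) :=
  AddMonoidHom.toIntLinearMap
    { toFun := fun m => A *ᵥ (fun i => (m i : K))
      map_zero' := by
        have : (fun i : Fin n => (((0 : Fin n → ℤ) i : ℤ) : K)) = 0 := by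
          funext i
          simp
        rw [this, mulVec_zero]
      map_add' := fun x y => by
        rw [← mulVec_add]
        congr 1
        funext i
        simp }

theorem FF_apply (A : Matrix (Fin n) (Fin n) K) (m : Fin n → ℤ) : FF A m = A *ᵥ (fun i => (m i : K)) := rfl

theorem cov_span (hA : AI ρ) {φ : Fin n → K} (hφ : φ ≠ 0) :
    Submodule.span K (Set.range fun h : G => φ ᵥ* (ρ h).val) = ⊤ := by
  refine span_top _ fun χ hχ => ?_
  refine vec_zero hφ (hA _ fun g => ?_)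
  rw [vecMulVec_mul, trace_vecMulVec]
  exact hχ _ ⟨g, rfl⟩

theorem vec_span (hA : AI ρ) {v : Fin n → K} (hv : v ≠ 0) :
    Submodule.span K (Set.range fun h : G => (ρ h).val *ᵥ v) = ⊤ := by
  refine span_top _ fun χ hχ => ?_
  have h1 : vecMulVec v χ = 0 := by
    refine hA _ fun g => ?_
    rw [vecMulVec_mul, trace_vecMulVec, dotProduct_comm, ← dotProduct_mulVec]
    exact hχ _ ⟨g, rfl⟩
  rcases vecMulVec_eq_zero.1 h1 with h | h
  · exact absurd h hv
  · exact h

theorem integral_hom [CharZero K] (τ : G →* GL (Fin n) K) (h : ∀ g i j, ∃ a : ℤ, (τ g).val i j = a) :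
    ∃ σ : G →* GL (Fin n) ℤ, ∀ g, GeneralLinearGroup.map (Int.castRingHom K) (σ g) = τ g := by
  choose S hS using h
  have hM : ∀ g, (Matrix.of (S g)).map (Int.castRingHom K) = (τ g).val := by
    intro g
    ext i j
    rw [Matrix.map_apply, Matrix.of_apply, hS]
    rfl
  have inj : Function.Injective fun A : Matrix (Fin n) (Fin n) ℤ => A.map (Int.castRingHom K) :=
    Matrix.map_injective Int.cast_injective
  let σ₀ : G →* Matrix (Fin n) (Fin n) ℤ :=
    { toFun := fun g => Matrix.of (S g)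
      map_one' := by
        apply inj
        simp only
        rw [hM, map_one, Units.val_one, Matrix.map_one _ (map_zero _) (map_one _)]
      map_mul' := fun g g' => by
        apply inj
        simp only
        rw [hM, map_mul, Units.val_mul, Matrix.map_mul, hM, hM] }
  refine ⟨σ₀.toHomUnits, fun g => Units.ext ?_⟩
  exact hM g

end

theorem lat : S_LAT := by
  intro K _ _ G _ n ρ ψ hA htr t v φ hv hφ ht
  -- integrality
  have hint : ∀ g : G, (ρ g).val *ᵥ v ∈ LL ρ φ := by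
    intro g h
    refine ⟨ψ (h * g * t) - ψ (h * g), ?_⟩
    have h1 := htr (h * g * t)
    rw [map_mul, Units.val_mul, ht, mul_add, mul_one, trace_add, htr (h * g), mul_vecMulVec,
      trace_vecMulVec] at h1
    rw [mulVec_mulVec, ← Units.val_mul, ← map_mul, dotProduct_comm]
    push_cast
    rw [← h1]
    ring
  -- a basis of covectors
  obtain ⟨hh, hB⟩ : ∃ hh : Fin n → G, IsUnit (Matrix.of fun i => φ ᵥ* (ρ (hh i)).val) := by
    obtain ⟨f, hf1, hf2, hf3⟩ := Submodule.exists_fun_fin_finrank_span_eq K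
      (Set.range fun h : G => φ ᵥ* (ρ h).val)
    have hn : finrank K (Submodule.span K (Set.range fun h : G => φ ᵥ* (ρ h).val)) = n := by
      rw [cov_span ρ hA hφ, finrank_top]
      simp
    choose hh hhe using hf1
    refine ⟨fun i => hh (Fin.cast hn.symm i), isUnit_of_span _ ?_⟩
    have e : (fun i : Fin n => φ ᵥ* (ρ (hh (Fin.cast hn.symm i))).val) = f ∘ (finCongr hn.symm) := by
      funext i
      exact hhe _
    rw [e, EquivLike.range_comp, hf2, cov_span ρ hA hφ]
  obtain ⟨BU, hBU⟩ := hB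
  -- the lattice
  have hsur : ∀ w ∈ LL ρ φ, ∃ m : Fin n → ℤ, FF (BU⁻¹).val m = w := by
    intro w hw
    choose a ha using hw
    refine ⟨fun i => a (hh i), ?_⟩
    rw [FF_apply]
    have e : (fun i => (a (hh i) : K)) = BU.val *ᵥ w := by
      funext i
      rw [hBU, ← ha, dotProduct_mulVec]
      rfl
    rw [e, mulVec_mulVec, ← Units.val_mul, inv_mul_cancel, Units.val_one, one_mulVec]
  obtain ⟨r, ⟨c⟩⟩ := Submodule.nonempty_basis_of_pid (Pi.basisFun ℤ (Fin n))
    ((LL ρ φ).comap (FF (BU⁻¹).val))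
  have hrn : r ≤ n := by
    have h1 := Submodule.finrank_le ((LL ρ φ).comap (FF (BU⁻¹).val))
    rw [finrank_eq_card_basis c] at h1
    simpa using h1
  have hcomb : ∀ w ∈ LL ρ φ, ∃ a : Fin r → ℤ, w = ∑ j, (a j : K) • FF (BU⁻¹).val (c j) := by
    intro w hw
    obtain ⟨m, hm⟩ := hsur w hw
    have hm' : m ∈ (LL ρ φ).comap (FF (BU⁻¹).val) := by
      rw [Submodule.mem_comap, hm]
      exact hw
    refine ⟨fun j => c.repr ⟨m, hm'⟩ j, ?_⟩
    have h1 := c.sum_repr ⟨m, hm'⟩
    have h2 := congrArg (fun x : ((LL ρ φ).comap (FF (BU⁻¹).val)) => FF (BU⁻¹).val (x : Fin n → ℤ)) h1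
    simp only [Submodule.coe_sum, Submodule.coe_smul, map_sum, map_smul] at h2
    rw [hm] at h2
    rw [← h2]
    refine Finset.sum_congr rfl fun j _ => ?_
    exact (Int.cast_smul_eq_zsmul K (c.repr ⟨m, hm'⟩ j) (FF (BU⁻¹).val (c j))).symm
  have hspan : Submodule.span K (Set.range fun j => FF (BU⁻¹).val (c j)) = ⊤ := by
    rw [eq_top_iff, ← vec_span ρ hA hv]
    refine Submodule.span_le.2 ?_
    rintro _ ⟨g, rfl⟩
    obtain ⟨a, ha⟩ := hcomb _ (hint g)
    simp only
    rw [ha]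
    exact Submodule.sum_mem _ fun j _ => Submodule.smul_mem _ _ (Submodule.subset_span ⟨j, rfl⟩)
  have hnr : n ≤ r := by
    have h1 := finrank_range_le_card (R := K) (fun j => FF (BU⁻¹).val (c j))
    unfold Set.finrank at h1
    rw [hspan, finrank_top] at h1
    simpa using h1
  obtain rfl : r = n := le_antisymm hrn hnr
  obtain ⟨QT, hQT⟩ := isUnit_of_span (fun j => FF (BU⁻¹).val (c j)) hspan
  have hQu : IsUnit (QT.val)ᵀ := (Matrix.isUnit_transpose _).2 QT.isUnit
  obtain ⟨Q, hQ⟩ := hQu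
  have hcol : ∀ i j, Q.val i j = FF (BU⁻¹).val (c j) i := by
    intro i j
    rw [hQ, transpose_apply, hQT]
    rfl
  have hent : ∀ g i j, ∃ a : ℤ, ((MulAut.conj Q⁻¹).toMonoidHom.comp ρ g).val i j = a := by
    intro g i j
    have h1 : FF (BU⁻¹).val (c j) ∈ LL ρ φ := (c j).2
    obtain ⟨a, ha⟩ := hcomb _ (LL_inv ρ h1 g)
    refine ⟨a i, ?_⟩
    have h2 : ((MulAut.conj Q⁻¹).toMonoidHom.comp ρ g) = Q⁻¹ * (ρ g * Q) := by
      show Q⁻¹ * ρ g * (Q⁻¹)⁻¹ = _
      rw [inv_inv, mul_assoc]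
    have h3 : ∀ l, (ρ g * Q).val l j = (Q.val *ᵥ (fun i => (a i : K))) l := by
      intro l
      have h4 : (ρ g * Q).val l j = ((ρ g).val *ᵥ FF (BU⁻¹).val (c j)) l := by
        rw [Units.val_mul, Matrix.mul_apply]
        unfold mulVec dotProduct
        exact Finset.sum_congr rfl fun x _ => by rw [hcol]
      rw [h4, ha]
      unfold mulVec dotProduct
      rw [Finset.sum_apply]
      refine Finset.sum_congr rfl fun x _ => ?_
      show (a x : K) * FF (BU⁻¹).val (c x) l = Q.val l x * (a x : K)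
      rw [hcol, mul_comm]
    rw [h2, Units.val_mul, Matrix.mul_apply]
    have h5 : ∑ l, (Q⁻¹).val i l * (ρ g * Q).val l j = ((Q⁻¹).val *ᵥ (Q.val *ᵥ (fun i => (a i : K)))) i := by
      unfold mulVec dotProduct
      refine Finset.sum_congr rfl fun l _ => ?_
      rw [h3 l]
      rfl
    rw [h5, mulVec_mulVec, ← Units.val_mul, inv_mul_cancel, Units.val_one, one_mulVec]
  obtain ⟨σ, hσ⟩ := integral_hom _ hent
  refine ⟨σ, Q⁻¹, fun g => ?_⟩
  rw [hσ]
  show Q⁻¹ * ρ g * (Q⁻¹)⁻¹ * Q⁻¹ = _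
  group

end Pool.Agent.H176.GR
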